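import Pool.Agent.MP_dd77b8_co.H73.Flip

set_option autoImplicit false

namespace Pool.Agent.MP_dd77b8_co.H73

open Finset

theorem flip_flip {ι : Type*} [DecidableEq ι] (D E : Finset ι) (y : EuclideanSpace ℝ ι) :
    flip E (flip D y) = flip (symmDiff D E) y := by
  ext i
  simp only [flip, Finset.mem_symmDiff]
  by_cases h1 : i ∈ D <;> by_cases h2 : i ∈ E <;> simp [h1, h2]

theorem dist_sq {ι : Type*} [Fintype ι] (y z : EuclideanSpace ℝ ι) :
    dist y z ^ 2 = ‖y‖ ^ 2 + ‖z‖ ^ 2 - 2 * ∑ i, y i * z i := by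
  rw [EuclideanSpace.dist_eq, Real.sq_sqrt (Finset.sum_nonneg fun _ _ => by positivity),
    EuclideanSpace.real_norm_sq_eq, EuclideanSpace.real_norm_sq_eq, Finset.mul_sum,
    ← Finset.sum_add_distrib, ← Finset.sum_sub_distrib]
  refine Finset.sum_congr rfl fun i _ => ?_
  rw [Real.dist_eq, sq_abs]
  ring

theorem norm_flip {ι : Type*} [Fintype ι] [DecidableEq ι] (D : Finset ι)
    (y : EuclideanSpace ℝ ι) : ‖flip D y‖ ^ 2 = ‖y‖ ^ 2 := by
  rw [EuclideanSpace.real_norm_sq_eq, EuclideanSpace.real_norm_sq_eq]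
  refine Finset.sum_congr rfl fun i _ => ?_
  simp only [flip]
  split_ifs <;> ring

theorem sum_star {n k : ℕ} (x : {T : Finset (Fin n) // T.card = k + 1} → ℝ) :
    ∑ S ∈ Finset.powersetCard k (Finset.univ : Finset (Fin n)), ∑ T ∈ star k S, x T =
      (k + 1) * ∑ T, x T := by
  simp only [star, Finset.sum_filter]
  rw [Finset.sum_comm, Finset.mul_sum]
  refine Finset.sum_congr rfl fun T _ => ?_
  rw [← Finset.sum_filter, Finset.sum_const, nsmul_eq_mul]
  have : (Finset.powersetCard k (Finset.univ : Finset (Fin n))).filter (fun S => S ⊆ T.1) =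
      Finset.powersetCard k T.1 := by
    ext S
    simp [Finset.mem_powersetCard, and_comm]
  rw [this, Finset.card_powersetCard, T.2, Nat.choose_succ_self_right]
  push_cast
  ring

theorem closed {n k : ℕ} {κ : Type} [Fintype κ] [DecidableEq κ]
    (Y : Set (EuclideanSpace ℝ ({T : Finset (Fin n) // T.card = k + 1} ⊕ κ)))
    (h1 : ∀ y ∈ Y, ‖y‖ ≤ 1) (h2 : ∀ y ∈ Y, ∀ j : κ, 0 ≤ y (Sum.inr j))
    (h3 : ∀ y ∈ Y, ∀ S : Finset (Fin n), S.card = k →
      flip ((star k S).map Function.Embedding.inl) y ∈ Y)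
    (h4 : ∃ y ∈ Y, ∃ z ∈ Y, ‖y‖ = 1 ∧ ‖z‖ = 1 ∧
      ∑ j : κ, y (Sum.inr j) * z (Sum.inr j) = 0) :
    ∃ m : ℕ, m ≤ n.choose (k + 1) * 2 ^ (n - k) + Fintype.card κ + 1 ∧
      ∃ A : Fin m → Set (EuclideanSpace ℝ ({T : Finset (Fin n) // T.card = k + 1} ⊕ κ)),
        (⋃ i, A i) = Y ∧ ∀ i, Metric.diam (A i) < Metric.diam Y := by
  classical
  have hb : Bornology.IsBounded Y :=
    (Metric.isBounded_closedBall (x := 0) (r := 1)).subset fun y hy => by simpa using h1 y hy
  have hdiam : 2 ≤ Metric.diam Y ^ 2 := by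
    obtain ⟨y, hy, z, hz, ny, nz, hyz⟩ := h4
    let 𝒮 : Finset (Finset ({T : Finset (Fin n) // T.card = k + 1} ⊕ κ)) :=
      Finset.univ.filter (fun D => (∀ j, Sum.inr j ∉ D) ∧ flip D z ∈ Y)
    have hne : 𝒮.Nonempty := by
      refine ⟨∅, Finset.mem_filter.2 ⟨Finset.mem_univ _, by simp, ?_⟩⟩
      have : flip ∅ z = z := by
        ext i
        simp [flip]
      rwa [this]
    obtain ⟨D, hD, hmax⟩ := Finset.exists_max_image 𝒮 (fun D => dist y (flip D z) ^ 2) hne
    obtain ⟨-, hD1, hD2⟩ := Finset.mem_filter.1 hD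
    have hloc : ∀ S ∈ Finset.powersetCard k (Finset.univ : Finset (Fin n)),
        ∑ T ∈ star k S, y (Sum.inl T) * flip D z (Sum.inl T) ≤ 0 := by
      intro S hS
      have hS' := (Finset.mem_powersetCard.1 hS).2
      have a1 := h3 _ hD2 S hS'
      have a2 := hmax (symmDiff D ((star k S).map Function.Embedding.inl))
        (Finset.mem_filter.2 ⟨Finset.mem_univ _, fun j => by
          simp [Finset.mem_symmDiff, hD1 j], by rwa [← flip_flip]⟩)
      rw [← flip_flip, dist_flip, Finset.sum_map] at a2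
      simp only [Function.Embedding.inl_apply] at a2
      linarith
    have hs := Finset.sum_nonpos hloc
    rw [sum_star] at hs
    have hs' : ∑ T, y (Sum.inl T) * flip D z (Sum.inl T) ≤ 0 := by
      by_contra hc
      push Not at hc
      have : (0 : ℝ) < (k + 1) * ∑ T, y (Sum.inl T) * flip D z (Sum.inl T) := by positivity
      linarith
    have hk : ∑ j : κ, y (Sum.inr j) * flip D z (Sum.inr j) = 0 := by
      rw [← hyz]
      refine Finset.sum_congr rfl fun j _ => ?_
      simp [flip, hD1 j]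
    have hd := dist_sq y (flip D z)
    rw [norm_flip, ny, nz, Fintype.sum_sum_type, hk] at hd
    have hle : dist y (flip D z) ^ 2 ≤ Metric.diam Y ^ 2 :=
      pow_le_pow_left₀ dist_nonneg (Metric.dist_le_diam_of_mem hb hy hD2) 2
    linarith
  have hpos : 0 < Metric.diam Y := by
    rcases (Metric.diam_nonneg (s := Y)).lt_or_eq with h | h
    · exact h
    · rw [← h] at hdiam
      norm_num at hdiam
  set d : ℕ := Fintype.card {T : Finset (Fin n) // T.card = k + 1} with hd
  set K : ℕ := Fintype.card κ with hK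
  set θ : ℝ := Real.sqrt (1 / (16 * (d + 1) * (K + 1))) with hθ
  have hθ0 : 0 < θ := Real.sqrt_pos.2 (by positivity)
  have hθ2 : θ ^ 2 = 1 / (16 * (d + 1) * (K + 1)) := Real.sq_sqrt (by positivity)
  have hdθ : (d : ℝ) * θ ^ 2 ≤ 1 / (16 * (K + 1)) := by
    rw [hθ2, mul_one_div, div_le_div_iff₀ (by positivity) (by positivity)]
    have : (0 : ℝ) ≤ K := by positivity
    nlinarith
  choose face hf1 hf2 using (exists_face (n := n) (k := k))
  obtain ⟨I, hI, B, hB1, hB2, hB3⟩ := core (P := {T : Finset (Fin n) // T.card = k + 1}) Y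
    {y | y ∈ Y ∧ ∃ T, θ ≤ |y (Sum.inl T)|} hb hpos (fun y hy => hy.1)
    (fun T => (star k (face T)).map Function.Embedding.inl) Sum.inl (n - k)
    (fun T => by rw [Finset.card_map]; exact card_star _ (hf2 T)) θ hθ0 (by
      rintro y ⟨hy, T, hT⟩
      exact ⟨T, Finset.mem_map.2 ⟨T, mem_star.2 (hf1 T), rfl⟩, hT, h3 y hy _ (hf2 T)⟩)
  let C : I ⊕ κ ⊕ Unit → Set (EuclideanSpace ℝ ({T : Finset (Fin n) // T.card = k + 1} ⊕ κ)) :=
    Sum.elim B (Sum.elim
      (fun j => {y | y ∈ Y ∧ (∀ T, |y (Sum.inl T)| < θ) ∧ 3 / (16 * (K + 1)) ≤ y (Sum.inr j) ^ 2})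
      (fun _ => {y | y ∈ Y ∧ ‖y‖ ≤ 1 / 2}))
  obtain ⟨A, hA1, hA2⟩ := cover_fin Y (Metric.diam Y) C (by
    apply Set.Subset.antisymm
    · refine Set.iUnion_subset ?_
      rintro (i | j | u) y hy
      · have : y ∈ ⋃ i, B i := Set.mem_iUnion.2 ⟨i, hy⟩
        rw [hB2] at this
        exact this.1
      · exact hy.1
      · exact hy.1
    · intro y hy
      by_cases c1 : ∃ T, θ ≤ |y (Sum.inl T)|
      · have : y ∈ ⋃ i, B i := by
          rw [hB2]
          exact ⟨hy, c1⟩
        obtain ⟨i, hi⟩ := Set.mem_iUnion.1 this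
        exact Set.mem_iUnion.2 ⟨Sum.inl i, hi⟩
      · by_cases c2 : ‖y‖ ≤ 1 / 2
        · exact Set.mem_iUnion.2 ⟨Sum.inr (Sum.inr ()), hy, c2⟩
        · push Not at c1 c2
          have e1 : ‖y‖ ^ 2 = ∑ T, y (Sum.inl T) ^ 2 + ∑ j, y (Sum.inr j) ^ 2 := by
            rw [EuclideanSpace.real_norm_sq_eq, Fintype.sum_sum_type]
          have e2 : ∑ T, y (Sum.inl T) ^ 2 ≤ d * θ ^ 2 := by
            calc ∑ T, y (Sum.inl T) ^ 2 ≤ ∑ _T : {T : Finset (Fin n) // T.card = k + 1}, θ ^ 2 :=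
                  Finset.sum_le_sum fun T _ => by
                    rw [← sq_abs]
                    exact pow_le_pow_left₀ (abs_nonneg _) (c1 T).le 2
              _ = _ := by rw [Finset.sum_const, Finset.card_univ, nsmul_eq_mul]
          have e3 : (1 : ℝ) / (16 * (K + 1)) ≤ 1 / 16 := by
            apply one_div_le_one_div_of_le (by norm_num)
            have : (0 : ℝ) ≤ K := by positivity
            linarith
          have e4 : (3 : ℝ) / 16 ≤ ∑ j, y (Sum.inr j) ^ 2 := by nlinarith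
          obtain ⟨j, hj⟩ := exists_big (fun j => y (Sum.inr j)) (3 / 16) (by norm_num) e4
          have hK0 : (0 : ℝ) < K := by
            have : 0 < K := Fintype.card_pos_iff.2 ⟨j⟩
            exact_mod_cast this
          refine Set.mem_iUnion.2 ⟨Sum.inr (Sum.inl j), hy, c1, le_trans ?_ hj⟩
          rw [div_div, ← hK]
          apply div_le_div_of_nonneg_left (by norm_num) (by positivity)
          linarith) (by
    rintro (i | j | u)
    · exact hB3 i
    · refine diam_lt_of_sq _ _ (4 / (16 * (K + 1))) hpos (by positivity) ?_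
      rintro y ⟨hy, y1, y2⟩ z ⟨hz, z1, z2⟩
      have e1 := dist_sq y z
      rw [Fintype.sum_sum_type] at e1
      have e2 : -(d * θ ^ 2) ≤ ∑ T, y (Sum.inl T) * z (Sum.inl T) := by
        calc -(d * θ ^ 2) = ∑ _T : {T : Finset (Fin n) // T.card = k + 1}, -θ ^ 2 := by
              rw [Finset.sum_const, Finset.card_univ, nsmul_eq_mul]
              ring
          _ ≤ _ := Finset.sum_le_sum fun T _ => by
              have a1 : |y (Sum.inl T) * z (Sum.inl T)| ≤ θ ^ 2 := by
                rw [abs_mul, sq]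
                exact mul_le_mul (y1 T).le (z1 T).le (abs_nonneg _) hθ0.le
              exact (abs_le.1 a1).1
      have e3 : y (Sum.inr j) * z (Sum.inr j) ≤ ∑ j, y (Sum.inr j) * z (Sum.inr j) :=
        Finset.single_le_sum (f := fun j => y (Sum.inr j) * z (Sum.inr j))
          (fun j _ => mul_nonneg (h2 y hy j) (h2 z hz j)) (Finset.mem_univ j)
      have e4 : 3 / (16 * ((K : ℝ) + 1)) ≤ y (Sum.inr j) * z (Sum.inr j) := by
        refine (abs_le_of_sq_le_sq' ?_ (mul_nonneg (h2 y hy j) (h2 z hz j))).2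
        rw [mul_pow, sq]
        exact mul_le_mul y2 z2 (by positivity) (by positivity)
      have e5 : ‖y‖ ^ 2 ≤ 1 := pow_le_one₀ (norm_nonneg _) (h1 y hy)
      have e6 : ‖z‖ ^ 2 ≤ 1 := pow_le_one₀ (norm_nonneg _) (h1 z hz)
      have e7 : (4 : ℝ) / (16 * (K + 1)) = 2 * (3 / (16 * (K + 1))) - 2 * (1 / (16 * (K + 1))) := by
        ring
      linarith
    · refine diam_lt_of_sq _ _ 1 hpos one_pos ?_
      rintro y ⟨-, y1⟩ z ⟨-, z1⟩
      have e1 : dist y z ≤ 1 := by
        rw [dist_eq_norm]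
        linarith [norm_sub_le y z]
      have e2 : dist y z ^ 2 ≤ 1 := pow_le_one₀ dist_nonneg e1
      linarith)
  refine ⟨_, ?_, A, hA1, hA2⟩
  rw [Fintype.card_sum, Fintype.card_sum, Fintype.card_unit, ← H98.card_sub n (k + 1)]
  omega

end Pool.Agent.MP_dd77b8_co.H73
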