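import Pool.Agent.MP_dd77b8_co.H98.Basic

set_option autoImplicit false

namespace Pool.Agent.MP_dd77b8_co.H73

open Finset

/-- Re-index a finite cover by an initial segment of the naturals. -/
theorem cover_fin {E I : Type*} [PseudoMetricSpace E] [Fintype I] (Y : Set E) (r : ℝ)
    (B : I → Set E) (hU : (⋃ i, B i) = Y) (hd : ∀ i, Metric.diam (B i) < r) :
    ∃ A : Fin (Fintype.card I) → Set E, (⋃ i, A i) = Y ∧ ∀ i, Metric.diam (A i) < r := by
  let e : Fin (Fintype.card I) ≃ I := (Fintype.equivFin I).symm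
  refine ⟨fun i => B (e i), ?_, fun i => hd _⟩
  rw [← hU]
  exact e.surjective.iUnion_comp B

/-- Negate the coordinates in `D`. -/
noncomputable def flip {ι : Type*} [DecidableEq ι] (D : Finset ι) (y : EuclideanSpace ℝ ι) :
    EuclideanSpace ℝ ι :=
  WithLp.toLp 2 (fun i => if i ∈ D then - y i else y i)

theorem dist_flip {ι : Type*} [Fintype ι] [DecidableEq ι] (D : Finset ι)
    (y z : EuclideanSpace ℝ ι) :
    dist y (flip D z) ^ 2 = dist y z ^ 2 + 4 * ∑ i ∈ D, y i * z i := by
  rw [EuclideanSpace.dist_eq, EuclideanSpace.dist_eq,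
    Real.sq_sqrt (Finset.sum_nonneg fun _ _ => by positivity),
    Real.sq_sqrt (Finset.sum_nonneg fun _ _ => by positivity)]
  have h : ∑ i ∈ D, y i * z i = ∑ i, if i ∈ D then y i * z i else 0 := by
    rw [Finset.sum_ite_mem, Finset.univ_inter]
  rw [h, Finset.mul_sum, ← Finset.sum_add_distrib]
  refine Finset.sum_congr rfl fun i _ => ?_
  simp only [flip, Real.dist_eq, sq_abs]
  split_ifs <;> ring

theorem diam_lt_of_sq {E : Type*} [PseudoMetricSpace E] (A : Set E) (r η : ℝ) (hr : 0 < r)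
    (hη : 0 < η) (h : ∀ y ∈ A, ∀ z ∈ A, dist y z ^ 2 + η ≤ r ^ 2) : Metric.diam A < r := by
  have h1 : Metric.diam A ≤ Real.sqrt (r ^ 2 - η) := by
    refine Metric.diam_le_of_forall_dist_le (Real.sqrt_nonneg _) fun y hy z hz => ?_
    exact Real.le_sqrt_of_sq_le (by linarith [h y hy z hz])
  refine lt_of_le_of_lt h1 ?_
  rw [Real.sqrt_lt' hr]
  linarith

/-- Points that can be moved inside `Y` by a sign change on a small set of coordinates containing a
large coordinate are covered by few sets of smaller diameter. -/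
theorem core {ι P : Type} [Fintype ι] [DecidableEq ι] [Fintype P] (Y Z : Set (EuclideanSpace ℝ ι))
    (hb : Bornology.IsBounded Y) (hpos : 0 < Metric.diam Y) (hZ : Z ⊆ Y)
    (D : P → Finset ι) (t : P → ι) (Δ : ℕ) (hD : ∀ p, (D p).card ≤ Δ) (θ : ℝ) (hθ : 0 < θ)
    (h : ∀ y ∈ Z, ∃ p, t p ∈ D p ∧ θ ≤ |y (t p)| ∧ flip (D p) y ∈ Y) :
    ∃ (I : Type) (_ : Fintype I) (B : I → Set (EuclideanSpace ℝ ι)),
      Fintype.card I ≤ Fintype.card P * 2 ^ Δ ∧ (⋃ i, B i) = Z ∧
        ∀ i, Metric.diam (B i) < Metric.diam Y := by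
  classical
  refine ⟨Σ p : P, (D p).powerset, inferInstance, fun q =>
    {y | y ∈ Z ∧ t q.1 ∈ D q.1 ∧ θ ≤ |y (t q.1)| ∧ flip (D q.1) y ∈ Y ∧
      ∀ i ∈ D q.1, (0 ≤ y i ↔ i ∈ q.2.1)}, ?_, ?_, ?_⟩
  · rw [Fintype.card_sigma]
    calc ∑ p : P, Fintype.card (D p).powerset ≤ ∑ _p : P, 2 ^ Δ := by
          refine Finset.sum_le_sum fun p _ => ?_
          rw [Fintype.card_coe, Finset.card_powerset]
          exact Nat.pow_le_pow_right (by norm_num) (hD p)
      _ = _ := by simp
  · ext y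
    simp only [Set.mem_iUnion, Set.mem_ofPred_eq]
    constructor
    · rintro ⟨q, hq, -⟩
      exact hq
    · intro hy
      obtain ⟨p, h1, h2, h3⟩ := h y hy
      refine ⟨⟨p, ⟨(D p).filter (fun i => 0 ≤ y i),
        Finset.mem_powerset.2 (Finset.filter_subset _ _)⟩⟩, hy, h1, h2, h3, fun i hi => ?_⟩
      simp [hi]
  · rintro ⟨p, s⟩
    refine diam_lt_of_sq _ _ (4 * θ ^ 2) hpos (by positivity) ?_
    rintro y ⟨hy, h1, h2, -, h4⟩ z ⟨-, -, k2, k3, k4⟩
    simp only at h1 h2 h4 k2 k3 k4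
    have hle : dist y (flip (D p) z) ≤ Metric.diam Y :=
      Metric.dist_le_diam_of_mem hb (hZ hy) k3
    have hsq : dist y (flip (D p) z) ^ 2 ≤ Metric.diam Y ^ 2 :=
      pow_le_pow_left₀ dist_nonneg hle 2
    have hnn : ∀ i ∈ D p, 0 ≤ y i * z i := by
      intro i hi
      by_cases hs : i ∈ s.1
      · exact mul_nonneg ((h4 i hi).2 hs) ((k4 i hi).2 hs)
      · have a1 : y i < 0 := not_le.1 fun a => hs ((h4 i hi).1 a)
        have a2 : z i < 0 := not_le.1 fun a => hs ((k4 i hi).1 a)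
        exact (mul_pos_of_neg_of_neg a1 a2).le
    have ht : θ ^ 2 ≤ y (t p) * z (t p) := by
      rw [← abs_of_nonneg (hnn _ h1), abs_mul, sq]
      exact mul_le_mul h2 k2 hθ.le (abs_nonneg _)
    have hs : y (t p) * z (t p) ≤ ∑ i ∈ D p, y i * z i :=
      Finset.single_le_sum (f := fun i => y i * z i) hnn h1
    rw [dist_flip] at hsq
    linarith

/-- A vector has a coordinate of at least average size. -/
theorem exists_big {ι : Type*} [Fintype ι] (y : ι → ℝ) (a : ℝ) (ha : 0 < a)
    (h : a ≤ ∑ i, y i ^ 2) : ∃ i, a / Fintype.card ι ≤ y i ^ 2 := by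
  by_contra hc
  push Not at hc
  rcases isEmpty_or_nonempty ι with he | hne
  · simp at h
    linarith
  · have hpos : (0 : ℝ) < Fintype.card ι := by exact_mod_cast Fintype.card_pos
    have := Finset.sum_lt_sum_of_nonempty (s := Finset.univ) Finset.univ_nonempty
      (fun i _ => hc i)
    rw [Finset.sum_const, Finset.card_univ, nsmul_eq_mul, mul_div_cancel₀ _ hpos.ne'] at this
    linarith

/-- The (k+1)-sets that contain a given set. -/
def star {n : ℕ} (k : ℕ) (S : Finset (Fin n)) : Finset {T : Finset (Fin n) // T.card = k + 1} :=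
  Finset.univ.filter (fun T => S ⊆ T.1)

theorem mem_star {n k : ℕ} {S : Finset (Fin n)} {T : {T : Finset (Fin n) // T.card = k + 1}} :
    T ∈ star k S ↔ S ⊆ T.1 := by simp [star]

theorem card_star {n k : ℕ} (S : Finset (Fin n)) (hS : S.card = k) : (star k S).card ≤ n - k := by
  have h : (star k S).card ≤ (Finset.powersetCard 1 Sᶜ).card := by
    refine Finset.card_le_card_of_injOn (fun T => T.1 \ S) ?_ ?_
    · intro T hT
      have hT' := mem_star.1 (Finset.mem_coe.1 hT)
      refine Finset.mem_coe.2 (Finset.mem_powersetCard.2 ⟨?_, ?_⟩)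
      · intro x hx
        exact Finset.mem_compl.2 (Finset.mem_sdiff.1 hx).2
      · rw [Finset.card_sdiff_of_subset hT', T.2, hS]
        omega
    · intro T hT U hU hTU
      have hT' := mem_star.1 (Finset.mem_coe.1 hT)
      have hU' := mem_star.1 (Finset.mem_coe.1 hU)
      apply Subtype.ext
      have hTU' : T.1 \ S = U.1 \ S := hTU
      rw [← Finset.sdiff_union_of_subset hT', ← Finset.sdiff_union_of_subset hU', hTU']
  rwa [Finset.card_powersetCard, Nat.choose_one_right, Finset.card_compl, Fintype.card_fin,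
    hS] at h

theorem exists_face {n k : ℕ} (T : {T : Finset (Fin n) // T.card = k + 1}) :
    ∃ S : Finset (Fin n), S ⊆ T.1 ∧ S.card = k :=
  Finset.exists_subset_card_eq (by rw [T.2]; omega)

end Pool.Agent.MP_dd77b8_co.H73
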