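import Pool.Agent.MP_dd77b8_co.H98.Asymp

set_option autoImplicit false

namespace Pool.Agent.MP_dd77b8_co.H73

open Finset Pool.Agent.MP_dd77b8_co.H98

theorem close_shift (M : ℕ) (hM : 0 < M) (a L x y : ℝ) (hL : 0 < L) (hx : a ≤ x) (hy : y ≤ a + L)
    (h : ∀ j : Fin M, a + L * (((j : ℕ) + 1 : ℝ) / M) ≤ y → a + L * (((j : ℕ) + 1 : ℝ) / M) ≤ x) :
    y - x ≤ L / M := by
  have := close_of_thresholds M hM ((x - a) / L) ((y - a) / L) (div_nonneg (by linarith) hL.le)
    (by rw [div_le_one hL]; linarith) (fun j hj => by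
      rw [le_div_iff₀ hL] at hj ⊢
      have := h j (by linarith)
      linarith)
  rw [← sub_div, div_le_iff₀ hL] at this
  calc y - x = y - a - (x - a) := by ring
    _ ≤ 1 / M * L := this
    _ = L / M := by ring

/-- Covering a subset of a cone given by square-free monomials at its own scale. -/
theorem subset_cover {σ ι : Type} [Fintype σ] [Fintype ι] [DecidableEq σ]
    (F : ι → Finset σ) (M : ℕ) (hM : 0 < M) (Y : Set (EuclideanSpace ℝ ι))
    (a : ι → ℝ) (L : ℝ) (hL : 0 < L) (hab : ∀ f ∈ Y, ∀ T, a T ≤ |f T| ∧ |f T| ≤ a T + L)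
    (hY : ∀ f ∈ Y, ∃ g : σ → ℝ, ∀ T, f T = ∏ S ∈ F T, g S) :
    ∃ m : ℕ, m ≤ 3 ^ Fintype.card σ * (Fintype.card ι * M + 1) ^ (Fintype.card σ + 1) ∧
      ∃ A : Fin m → Set (EuclideanSpace ℝ ι), (⋃ i, A i) = Y ∧
        ∀ i, Metric.diam (A i) ≤ Real.sqrt (Fintype.card ι) * (L / M) := by
  classical
  have hM' : (0 : ℝ) < M := by exact_mod_cast hM
  let τ : ι × Fin M → ℝ := fun p => a p.1 + L * ((((p.2 : ℕ) : ℝ) + 1) / M)
  let w : ι × Fin M → σ → ℝ := fun p x => if 0 < τ p then (if x ∈ F p.1 then 1 else 0) else 0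
  let c : ι × Fin M → ℝ := fun p => if 0 < τ p then Real.log (τ p) else 0
  let pat : (σ → ℝ) → Finset (ι × Fin M) := fun g =>
    Finset.univ.filter (fun p => c p ≤ ∑ x, w p x * Real.log |g x|)
  let 𝒜 : Finset (Finset (ι × Fin M)) :=
    Finset.univ.filter (fun s => ∃ a : σ → ℝ, ∀ i, i ∈ s ↔ c i ≤ ∑ x, w i x * a x)
  have h𝒜 : 𝒜.card ≤ (Fintype.card ι * M + 1) ^ (Fintype.card σ + 1) := by
    have := card_patterns w c 𝒜 (fun s hs => (Finset.mem_filter.1 hs).2)
    simpa using this
  have hpat : ∀ g, pat g ∈ 𝒜 := by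
    intro g
    refine Finset.mem_filter.2 ⟨Finset.mem_univ _, fun x => Real.log |g x|, fun i => ?_⟩
    simp [pat]
  let κ := (σ → SignType) × 𝒜
  let B : κ → Set (EuclideanSpace ℝ ι) := fun p =>
    {f | f ∈ Y ∧ ∃ g : σ → ℝ, (∀ T, f T = ∏ S ∈ F T, g S) ∧
      (∀ x, SignType.sign (g x) = p.1 x) ∧ pat g = p.2}
  have hcard : Fintype.card κ = 3 ^ Fintype.card σ * 𝒜.card := by
    simp [κ, Fintype.card_prod, show Fintype.card SignType = 3 from rfl]
  let e : Fin (Fintype.card κ) ≃ κ := (Fintype.equivFin κ).symm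
  refine ⟨Fintype.card κ, ?_, fun i => B (e i), ?_, ?_⟩
  · rw [hcard]
    exact Nat.mul_le_mul_left _ h𝒜
  · ext f
    simp only [Set.mem_iUnion]
    constructor
    · rintro ⟨i, hi⟩
      exact hi.1
    · intro hf
      obtain ⟨g, hg⟩ := hY f hf
      refine ⟨e.symm (fun x => SignType.sign (g x), ⟨pat g, hpat g⟩), ?_⟩
      rw [Equiv.apply_symm_apply]
      exact ⟨hf, g, hg, fun x => rfl, rfl⟩
  · intro i
    show Metric.diam (B (e i)) ≤ _
    generalize e i = p
    refine Metric.diam_le_of_forall_dist_le (by positivity) ?_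
    rintro f ⟨hfY, g, hg, hgs, hgp⟩ f' ⟨hfY', g', hg', hgs', hgp'⟩
    have hsign : ∀ x, SignType.sign (g x) = SignType.sign (g' x) := fun x => by
      rw [hgs, hgs']
    have hpp : pat g = pat g' := by rw [hgp, hgp']
    have hlog : ∀ (u : σ → ℝ) (T : ι) (j : Fin M), (∀ S ∈ F T, u S ≠ 0) →
        ((T, j) ∈ pat u ↔ a T + L * (((j : ℕ) + 1 : ℝ) / M) ≤ |∏ S ∈ F T, u S|) := by
      intro u T j hu
      have hpos : 0 < |∏ S ∈ F T, u S| := abs_pos.2 (Finset.prod_ne_zero_iff.2 hu)
      simp only [pat, Finset.mem_filter, Finset.mem_univ, true_and]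
      by_cases ht : 0 < τ (T, j)
      · have hsum : ∑ x, w (T, j) x * Real.log |u x| = Real.log |∏ S ∈ F T, u S| := by
          rw [Finset.abs_prod, Real.log_prod (fun S hS => abs_ne_zero.2 (hu S hS))]
          simp only [w, if_pos ht, ite_mul, one_mul, zero_mul]
          rw [Finset.sum_ite_mem, Finset.univ_inter]
        rw [hsum]
        simp only [c, if_pos ht]
        exact Real.log_le_log_iff ht hpos
      · simp only [w, c, if_neg ht, zero_mul, Finset.sum_const_zero, le_refl, true_iff]
        exact le_trans (not_lt.1 ht) hpos.le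
    have hcoord : ∀ T, |f T - f' T| ≤ L / M := by
      intro T
      by_cases hz : ∀ S ∈ F T, g S ≠ 0
      · have hz' : ∀ S ∈ F T, g' S ≠ 0 := by
          intro S hS h0
          have := hsign S
          rw [h0, sign_zero, sign_eq_zero_iff] at this
          exact hz S hS this
        have hs : SignType.sign (f T) = SignType.sign (f' T) := by
          rw [hg T, hg' T]
          have e1 := map_prod (signHom (α := ℝ)) g (F T)
          have e2 := map_prod (signHom (α := ℝ)) g' (F T)
          simp only [signHom, MonoidWithZeroHom.coe_mk, ZeroHom.coe_mk] at e1 e2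
          rw [e1, e2]
          exact Finset.prod_congr rfl (fun S _ => hsign S)
        have hab' : |f T - f' T| = |(|f T| - |f' T|)| := by
          have e1 := sign_mul_abs (f T)
          have e2 := sign_mul_abs (f' T)
          have hne : f' T ≠ 0 := by
            rw [hg' T]
            exact Finset.prod_ne_zero_iff.2 hz'
          rw [hs] at e1
          have : f T - f' T = (SignType.sign (f' T) : ℝ) * (|f T| - |f' T|) := by
            rw [mul_sub, e1, e2]
          rw [this, abs_mul]
          rcases lt_or_gt_of_ne hne with h | h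
          · simp [sign_neg h]
          · simp [sign_pos h]
        rw [hab', abs_le]
        constructor
        · have := close_shift M hM (a T) L |f T| |f' T| hL (hab f hfY T).1 (hab f' hfY' T).2 (by
            intro j hj
            rw [hg' T, ← hlog g' T j hz', ← hpp, hlog g T j hz, ← hg T] at hj
            exact hj)
          linarith
        · exact close_shift M hM (a T) L |f' T| |f T| hL (hab f' hfY' T).1 (hab f hfY T).2 (by
            intro j hj
            rw [hg T, ← hlog g T j hz, hpp, hlog g' T j hz', ← hg' T] at hj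
            exact hj)
      · push Not at hz
        obtain ⟨S, hS, h0⟩ := hz
        have h0' : g' S = 0 := by
          have := hsign S
          rw [h0, sign_zero] at this
          exact sign_eq_zero_iff.1 this.symm
        rw [hg T, hg' T, Finset.prod_eq_zero hS h0, Finset.prod_eq_zero hS h0', sub_zero, abs_zero]
        positivity
    rw [EuclideanSpace.dist_eq]
    have : Real.sqrt (Fintype.card ι) * (L / M) = Real.sqrt (∑ _T : ι, (L / (M : ℝ)) ^ 2) := by
      rw [Finset.sum_const, Finset.card_univ, nsmul_eq_mul, Real.sqrt_mul (by positivity),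
        Real.sqrt_sq (by positivity)]
    rw [this]
    apply Real.sqrt_le_sqrt
    apply Finset.sum_le_sum
    intro T _
    rw [Real.dist_eq]
    exact pow_le_pow_left₀ (abs_nonneg _) (hcoord T) 2

theorem all_subsets (n k : ℕ)
    (Y : Set (EuclideanSpace ℝ {T : Finset (Fin n) // T.card = k + 1}))
    (hY : Y ⊆ {f | ∃ g : Finset (Fin n) → ℝ,
      f = WithLp.toLp 2 (fun T : {T : Finset (Fin n) // T.card = k + 1} =>
        ∏ S ∈ T.1.powersetCard k, g S)})
    (hb : Bornology.IsBounded Y) (hne : Y.Nontrivial) :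
    ∃ m : ℕ, m ≤ 3 ^ n.choose k *
        (n.choose (k + 1) * (2 * n.choose (k + 1) + 1) + 1) ^ (n.choose k + 1) ∧
      ∃ A : Fin m → Set (EuclideanSpace ℝ {T : Finset (Fin n) // T.card = k + 1}),
        (⋃ i, A i) = Y ∧ ∀ i, Metric.diam (A i) < Metric.diam Y := by
  have hpos : 0 < Metric.diam Y := Metric.diam_pos hne hb
  obtain ⟨y, hy⟩ := hne.nonempty
  obtain ⟨m, hm, A, hA1, hA2⟩ := subset_cover
    (σ := {S : Finset (Fin n) // S.card = k}) (ι := {T : Finset (Fin n) // T.card = k + 1})
    (fun T => (T.1.powersetCard k).subtype (fun S => S.card = k)) (2 * n.choose (k + 1) + 1)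
    (Nat.succ_pos _) Y (fun T => |y T| - Metric.diam Y) (2 * Metric.diam Y) (by positivity) (by
      intro f hf T
      have h1 : dist (f T) (y T) ≤ dist f y := PiLp.dist_apply_le f y T
      have h2 := Metric.dist_le_diam_of_mem hb hf hy
      rw [Real.dist_eq] at h1
      have h3 := abs_le.1 (le_trans (abs_abs_sub_abs_le_abs_sub (f T) (y T)) (h1.trans h2))
      constructor <;> linarith [h3.1, h3.2]) (by
      intro f hf
      obtain ⟨g, hg⟩ := hY hf
      refine ⟨fun S => g S.1, fun T => ?_⟩
      rw [hg, Finset.prod_subtype_of_mem g (fun S hS => (Finset.mem_powersetCard.1 hS).2)])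
  rw [card_sub, card_sub] at hm
  rw [card_sub] at hA2
  refine ⟨m, hm, A, hA1, fun i => lt_of_le_of_lt (hA2 i) ?_⟩
  set d : ℝ := (n.choose (k + 1) : ℝ) with hd
  have hd0 : 0 ≤ d := by positivity
  have hs : Real.sqrt d ≤ d := by
    rcases Nat.eq_zero_or_pos (n.choose (k + 1)) with h | h
    · simp [hd, h]
    · have h1 : (1 : ℝ) ≤ d := by
        rw [hd]
        exact_mod_cast h
      rw [Real.sqrt_le_left hd0]
      nlinarith
  push_cast
  rw [← hd, ← mul_div_assoc, div_lt_iff₀ (by positivity)]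
  nlinarith

end Pool.Agent.MP_dd77b8_co.H73
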