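import Pool.Agent.MP_dd77b8_co.H73.Closed

set_option autoImplicit false

namespace Pool.Agent.MP_dd77b8_co.H73

open Finset

/-- The product vector of a function on sets. -/
noncomputable def vec {n : ℕ} (k : ℕ) (g : Finset (Fin n) → ℝ) :
    EuclideanSpace ℝ {T : Finset (Fin n) // T.card = k + 1} :=
  WithLp.toLp 2 (fun T : {T : Finset (Fin n) // T.card = k + 1} =>
    ∏ S ∈ T.1.powersetCard k, g S)

theorem vec_flip {n k : ℕ} (g : Finset (Fin n) → ℝ) (S : Finset (Fin n)) (hS : S.card = k) :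
    vec k (fun U => if U = S then - g U else g U) = flip (star k S) (vec k g) := by
  ext T
  simp only [vec, flip, mem_star]
  by_cases h : S ⊆ T.1
  · have hm : S ∈ T.1.powersetCard k := Finset.mem_powersetCard.2 ⟨h, hS⟩
    rw [if_pos h, ← Finset.mul_prod_erase _ _ hm, ← Finset.mul_prod_erase _ g hm, if_pos rfl,
      Finset.prod_congr rfl (fun U hU => if_neg (Finset.ne_of_mem_erase hU))]
    ring
  · rw [if_neg h]
    refine Finset.prod_congr rfl fun U hU => if_neg ?_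
    rintro rfl
    exact h (Finset.mem_powersetCard.1 hU).1

theorem exists_pair {n k : ℕ} (hn : k + 2 ≤ n) (g : Finset (Fin n) → ℝ)
    (h0 : ∀ S, S.card = k → g S ≠ 0)
    (h1 : ∃ S S' : Finset (Fin n), S.card = k ∧ S'.card = k ∧ g S' < 0 ∧ 0 < g S)
    (T : {T : Finset (Fin n) // T.card = k + 1}) :
    ∃ S S' : Finset (Fin n), S.card = k ∧ S'.card = k ∧ g S' < 0 ∧ 0 < g S ∧
      T ∈ symmDiff (star k S') (star k S) := by
  obtain ⟨P, Q, hP, hQ, gQ, gP⟩ := h1
  have hk : 1 ≤ k := by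
    rcases Nat.eq_zero_or_pos k with h | h
    · subst h
      rw [Finset.card_eq_zero] at hP hQ
      rw [hP] at gP
      rw [hQ] at gQ
      linarith
    · exact h
  obtain ⟨F, hF1, hF2⟩ := exists_face T
  obtain ⟨v, hv⟩ : ∃ v, v ∉ T.1 := by
    by_contra hc
    push Not at hc
    have := T.2
    rw [Finset.eq_univ_iff_forall.2 hc, Finset.card_univ, Fintype.card_fin] at this
    omega
  obtain ⟨O, hO1, -, hO2⟩ := Finset.exists_subsuperset_card_eq (s := {v}) (t := Finset.univ)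
    (n := k) (Finset.subset_univ _) (by simpa using hk) (by simp; omega)
  have hO : ¬ O ⊆ T.1 := fun h => hv (h (hO1 (Finset.mem_singleton_self v)))
  simp only [Finset.mem_symmDiff, mem_star]
  rcases lt_or_gt_of_ne (h0 F hF2) with a | a <;> rcases lt_or_gt_of_ne (h0 O hO2) with b | b
  · by_cases c : P ⊆ T.1
    · exact ⟨P, O, hP, hO2, b, gP, Or.inr ⟨c, hO⟩⟩
    · exact ⟨P, F, hP, hF2, a, gP, Or.inl ⟨hF1, c⟩⟩
  · exact ⟨O, F, hO2, hF2, a, b, Or.inl ⟨hF1, hO⟩⟩
  · exact ⟨F, O, hF2, hO2, b, a, Or.inr ⟨hF1, hO⟩⟩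
  · by_cases c : Q ⊆ T.1
    · exact ⟨O, Q, hO2, hQ, gQ, b, Or.inl ⟨c, hO⟩⟩
    · exact ⟨F, Q, hF2, hQ, gQ, a, Or.inr ⟨hF1, c⟩⟩

theorem big_coord {ι : Type*} [Fintype ι] (y : EuclideanSpace ℝ ι) (hy : ‖y‖ = 1) :
    ∃ i, Real.sqrt (1 / ((Fintype.card ι : ℝ) + 1)) ≤ |y i| := by
  have h : (1 : ℝ) ≤ ∑ i, y i ^ 2 := by
    rw [← EuclideanSpace.real_norm_sq_eq, hy]
    norm_num
  obtain ⟨i, hi⟩ := exists_big (fun i => y i) 1 one_pos h
  have hc : (0 : ℝ) < Fintype.card ι := by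
    have : 0 < Fintype.card ι := Fintype.card_pos_iff.2 ⟨i⟩
    exact_mod_cast this
  refine ⟨i, ?_⟩
  rw [← Real.sqrt_sq_eq_abs]
  exact Real.sqrt_le_sqrt (le_trans (one_div_le_one_div_of_le hc (by linarith)) hi)

theorem swap {n k : ℕ} (hn : k + 2 ≤ n) (G : Set (Finset (Fin n) → ℝ))
    (h0 : ∀ g ∈ G, ∀ S : Finset (Fin n), S.card = k → g S ≠ 0)
    (h1 : ∀ g ∈ G, ∃ S S' : Finset (Fin n), S.card = k ∧ S'.card = k ∧ g S' < 0 ∧ 0 < g S)
    (h2 : ∀ g ∈ G, ∀ S S' : Finset (Fin n), S.card = k → S'.card = k → g S' < 0 → 0 < g S →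
      (fun U => if U = S ∨ U = S' then - g U else g U) ∈ G)
    (Y : Set (EuclideanSpace ℝ {T : Finset (Fin n) // T.card = k + 1}))
    (hY : Y = {f | ∃ g ∈ G, f = vec k g ∧ ‖f‖ = 1}) (hne : Y.Nonempty) :
    ∃ m : ℕ, m ≤ n.choose (k + 1) * n.choose k ^ 2 * 4 ^ (n - k) ∧
      ∃ A : Fin m → Set (EuclideanSpace ℝ {T : Finset (Fin n) // T.card = k + 1}),
        (⋃ i, A i) = Y ∧ ∀ i, Metric.diam (A i) < Metric.diam Y := by
  classical
  have hb : Bornology.IsBounded Y :=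
    (Metric.isBounded_closedBall (x := 0) (r := 1)).subset fun y hy => by
      rw [hY] at hy
      obtain ⟨g, -, -, h⟩ := hy
      simp [h]
  set θ : ℝ := Real.sqrt
    (1 / ((Fintype.card {T : Finset (Fin n) // T.card = k + 1} : ℝ) + 1)) with hθ
  have hθ0 : 0 < θ := Real.sqrt_pos.2 (by positivity)
  let P := {T : Finset (Fin n) // T.card = k + 1} × {S : Finset (Fin n) // S.card = k} ×
    {S : Finset (Fin n) // S.card = k}
  let D : P → Finset {T : Finset (Fin n) // T.card = k + 1} := fun p =>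
    symmDiff (star k p.2.2.1) (star k p.2.1.1)
  have key : ∀ y ∈ Y, ∃ p : P, p.1 ∈ D p ∧ θ ≤ |y p.1| ∧ flip (D p) y ∈ Y := by
    intro y hy
    rw [hY] at hy
    obtain ⟨g, hg, rfl, hn1⟩ := hy
    obtain ⟨T, hT⟩ := big_coord _ hn1
    obtain ⟨S, S', c1, c2, c3, c4, c5⟩ := exists_pair hn g (h0 g hg) (h1 g hg) T
    refine ⟨(T, ⟨S, c1⟩, ⟨S', c2⟩), c5, hT, ?_⟩
    have hne : S ≠ S' := by
      rintro rfl
      linarith
    rw [hY]
    refine ⟨_, h2 g hg S S' c1 c2 c3 c4, ?_, ?_⟩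
    · show flip (symmDiff (star k S') (star k S)) (vec k g) = _
      rw [← flip_flip, ← vec_flip g S' c2, ← vec_flip _ S c1]
      congr 1
      funext U
      by_cases a : U = S <;> by_cases b : U = S'
      · exact absurd (a.symm.trans b) hne
      · simp [a, hne]
      · simp [b, hne.symm]
      · simp [a, b]
    · have := norm_flip (D (T, ⟨S, c1⟩, ⟨S', c2⟩)) (vec k g)
      rw [hn1] at this
      exact (pow_left_inj₀ (norm_nonneg _) zero_le_one two_ne_zero).1 this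
  have hpos : 0 < Metric.diam Y := by
    obtain ⟨y, hy⟩ := hne
    obtain ⟨p, a1, a2, a3⟩ := key y hy
    refine lt_of_lt_of_le (dist_pos.2 fun h => ?_) (Metric.dist_le_diam_of_mem hb hy a3)
    have := congrArg (fun w : EuclideanSpace ℝ {T : Finset (Fin n) // T.card = k + 1} => w p.1) h
    simp only [flip, if_pos a1] at this
    have h0 : y p.1 = 0 := by linarith
    rw [h0, abs_zero] at a2
    linarith
  obtain ⟨I, hI, B, hB1, hB2, hB3⟩ := core (P := P) Y Y hb hpos subset_rfl D (fun p => p.1)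
    (2 * (n - k)) (fun p => by
      have a1 := card_star p.2.2.1 p.2.2.2
      have a2 := card_star p.2.1.1 p.2.1.2
      have a3 : (D p).card ≤ (star k p.2.2.1 ∪ star k p.2.1.1).card :=
        Finset.card_le_card (Finset.symmDiff_subset_union)
      have a4 := Finset.card_union_le (star k p.2.2.1) (star k p.2.1.1)
      omega) θ hθ0 key
  obtain ⟨A, hA1, hA2⟩ := cover_fin Y _ B hB2 hB3
  refine ⟨_, le_trans hB1 (le_of_eq ?_), A, hA1, hA2⟩
  simp only [P, Fintype.card_prod, H98.card_sub]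
  rw [pow_mul]
  ring

end Pool.Agent.MP_dd77b8_co.H73
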